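import Pool.Agent.helper62.VQ.SpecE

set_option autoImplicit false

open scoped MatrixGroups ContDiff Topology UpperHalfPlane
open UpperHalfPlane MeasureTheory Filter Set

namespace Pool.Agent.VQE

open Pool.Agent.RS

theorem HOF_sfin : SFinite mG := by
  unfold mG
  infer_instance

theorem HOF_lim (a b : ℕ → ℝ) (ns : ℕ → ℕ) (hns : StrictMono ns) (A B C : ℝ)
    (ha : Tendsto a atTop (𝓝 A)) (hb : Tendsto b atTop (𝓝 B))
    (h : ∀ k, 0 < ns k → |a k - b k| ≤ C / (ns k : ℝ)) : A = B := by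
  have h1 : Tendsto (fun k => C / (ns k : ℝ)) atTop (𝓝 0) :=
    tendsto_const_nhds.div_atTop (tendsto_natCast_atTop_atTop.comp hns.tendsto_atTop)
  have h2 : Tendsto (fun k => a k - b k) atTop (𝓝 0) := by
    apply squeeze_zero_norm' _ h1
    filter_upwards [eventually_gt_atTop 0] with k hk
    rw [Real.norm_eq_abs]
    exact h k (lt_of_lt_of_le hk (hns.id_le k))
  have h3 := tendsto_nhds_unique h2 (ha.sub hb)
  linarith

theorem HOF_shift {Γ : Subgroup SL(2, ℝ)} {L : ℝ} {p q : SL(2, ℝ) → ℝ} {f : ℝ → SL(2, ℝ) → SL(2, ℝ)}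
    {h : SL(2, ℝ) → ℝ} (hf : Flw p q f) (hh : Tf Γ L h) (t : ℝ) (g : SL(2, ℝ)) (T : ℝ) (hT : 0 < T) :
    |avf f h T (f t g) - avf f h T g| ≤ 2 * |t| / T := by
  have hc : Continuous (fun s : ℝ => h (f s g)) :=
    hh.cont.comp (hf.cont.comp (continuous_id.prodMk continuous_const))
  have hi : ∀ a b : ℝ, IntervalIntegrable (fun s : ℝ => h (f s g)) volume a b := fun a b =>
    hc.intervalIntegrable a b
  have e1 : ∫ s in (0 : ℝ)..T, h (f s (f t g)) = ∫ s in t..(T + t), h (f s g) := by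
    have h1 : ∀ s : ℝ, h (f s (f t g)) = h (f (s + t) g) := fun s => by rw [hf.add]
    simp only [h1]
    rw [intervalIntegral.integral_comp_add_right (fun s => h (f s g)) t, zero_add]
  have e2 := intervalIntegral.integral_add_adjacent_intervals (hi 0 t) (hi t (T + t))
  have e3 := intervalIntegral.integral_add_adjacent_intervals (hi 0 T) (hi T (T + t))
  have n1 : ‖∫ s in (0 : ℝ)..t, h (f s g)‖ ≤ 1 * |t - 0| :=
    intervalIntegral.norm_integral_le_of_norm_le_const (fun s _ => hh.bd _)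
  have n2 : ‖∫ s in T..(T + t), h (f s g)‖ ≤ 1 * |T + t - T| :=
    intervalIntegral.norm_integral_le_of_norm_le_const (fun s _ => hh.bd _)
  rw [Real.norm_eq_abs, sub_zero, one_mul] at n1
  rw [Real.norm_eq_abs, add_sub_cancel_left, one_mul] at n2
  unfold avf
  rw [e1, ← mul_sub, abs_mul, abs_of_pos (inv_pos.2 hT)]
  have e4 : (∫ s in t..(T + t), h (f s g)) - ∫ s in (0 : ℝ)..T, h (f s g) =
      (∫ s in T..(T + t), h (f s g)) - ∫ s in (0 : ℝ)..t, h (f s g) := by linarith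
  rw [e4]
  have h5 : |(∫ s in T..(T + t), h (f s g)) - ∫ s in (0 : ℝ)..t, h (f s g)| ≤ 2 * |t| := by
    calc _ ≤ |∫ s in T..(T + t), h (f s g)| + |∫ s in (0 : ℝ)..t, h (f s g)| := abs_sub _ _
      _ ≤ 2 * |t| := by linarith
  calc T⁻¹ * |(∫ s in T..(T + t), h (f s g)) - ∫ s in (0 : ℝ)..t, h (f s g)| ≤ T⁻¹ * (2 * |t|) :=
        mul_le_mul_of_nonneg_left h5 (inv_pos.2 hT).le
    _ = 2 * |t| / T := by rw [div_eq_inv_mul]

theorem HOF_Tf {Γ : Subgroup SL(2, ℝ)} {L : ℝ} {h : SL(2, ℝ) → ℝ} (h1 : NMB_stmt) (hh : Tf Γ L h) :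
    Tf Γ L (fun g => h (g * kJ⁻¹)) := by
  refine ⟨?_, ?_, ?_, ?_⟩
  · exact hh.cont.comp (continuous_id.mul continuous_const)
  · intro γ g
    show h ((γ : SL(2, ℝ)) * g * kJ⁻¹) = h (g * kJ⁻¹)
    rw [mul_assoc]
    exact hh.inv γ _
  · intro g
    exact hh.bd _
  · intro g D
    show |h (g * D * kJ⁻¹) - h (g * kJ⁻¹)| ≤ L * nm D
    have e1 : g * D * kJ⁻¹ = g * kJ⁻¹ * (kJ * D * kJ⁻¹) := by group
    rw [e1]
    have h2 := hh.lip (g * kJ⁻¹) (kJ * D * kJ⁻¹)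
    rwa [h1.2.2.2.1] at h2

theorem HOF_avr (f : ℝ → SL(2, ℝ) → SL(2, ℝ)) (h : SL(2, ℝ) → ℝ) (T : ℝ) (g : SL(2, ℝ)) :
    avf (rf f) (fun g => h (g * kJ⁻¹)) T (g * kJ) = avf (fun t => f (-t)) h T g := by
  unfold avf rf
  congr 1
  apply intervalIntegral.integral_congr
  intro t _
  show h (f (-t) (g * kJ * kJ⁻¹) * kJ * kJ⁻¹) = h (f (-t) g)
  rw [mul_inv_cancel_right, mul_inv_cancel_right]

theorem HOF_meas (F : (Fin 3 → ℝ) × SL(2, ℝ) → SL(2, ℝ)) (Q : Set (Fin 3 → ℝ)) (hQ : MeasurableSet Q)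
    (hF : ContinuousOn F (Q ×ˢ univ)) (N : Set SL(2, ℝ)) (hN : MeasurableSet N) :
    MeasurableSet {x : (Fin 3 → ℝ) × SL(2, ℝ) | x.1 ∈ Q → F x ∉ N} := by
  classical
  have hs : MeasurableSet (Q ×ˢ (univ : Set SL(2, ℝ))) := hQ.prod MeasurableSet.univ
  have h1 : Measurable ((Q ×ˢ (univ : Set SL(2, ℝ))).piecewise F (fun _ => 1)) :=
    hF.measurable_piecewise continuousOn_const hs
  have h2 : {x : (Fin 3 → ℝ) × SL(2, ℝ) | x.1 ∈ Q → F x ∉ N} =
      (Q ×ˢ (univ : Set SL(2, ℝ)))ᶜ ∪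
        ((Q ×ˢ (univ : Set SL(2, ℝ))).piecewise F (fun _ => 1)) ⁻¹' Nᶜ := by
    ext x
    constructor
    · intro hx
      by_cases hq : x.1 ∈ Q
      · right
        show (Q ×ˢ (univ : Set SL(2, ℝ))).piecewise F (fun _ => 1) x ∉ N
        rw [Set.piecewise_eq_of_mem _ _ _ (show x ∈ Q ×ˢ (univ : Set SL(2, ℝ)) from ⟨hq, mem_univ _⟩)]
        exact hx hq
      · left
        intro hx'
        exact hq hx'.1
    · rintro (hx | hx) hq
      · exact absurd (show x ∈ Q ×ˢ (univ : Set SL(2, ℝ)) from ⟨hq, mem_univ _⟩) hx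
      · have hx' : (Q ×ˢ (univ : Set SL(2, ℝ))).piecewise F (fun _ => 1) x ∉ N := hx
        rwa [Set.piecewise_eq_of_mem _ _ _ (show x ∈ Q ×ˢ (univ : Set SL(2, ℝ)) from ⟨hq, mem_univ _⟩)]
          at hx'
  rw [h2]
  exact hs.compl.union (h1 hN.compl)

theorem HOF_proof (h1 : NMB_stmt) (h2 : STP_stmt) (h3 : AVE_stmt) (h4 : REV_stmt) (h5 : NUL_stmt)
    (h6 : NUI_stmt) (h7 : ALP_stmt) (h8 : LCL_stmt) (h9 : LCS_stmt) : HOF_stmt := by
  intro Γ δ L p q f h u ns hδ0 hδ hL hF hG hT hu hns hae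
  have hsf := HOF_sfin
  have hFl : Flw p q f := hG.toFlw
  have hFr : Fld δ (rp p) (rq q) := h4.1 δ p q hF
  have hGr : Flw (rp p) (rq q) (rf f) := h4.2.1 p q f hFl
  have hTr := HOF_Tf h1 hT
  -- the exceptional set
  set Ω : Set SL(2, ℝ) := {g | Tendsto (fun k => avf f h (ns k) g) atTop (𝓝 (u g)) ∧
    Tendsto (fun k => avf (fun t => f (-t)) h (ns k) g) atTop (𝓝 (u g))} with hΩ
  set N : Set SL(2, ℝ) := toMeasurable mG Ωᶜ with hNdef
  have hN0 : mG N = 0 := by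
    rw [hNdef, measure_toMeasurable]
    exact hae
  have hNm : MeasurableSet N := measurableSet_toMeasurable _ _
  have hNΩ : ∀ g, g ∉ N → g ∈ Ω := by
    intro g hg
    by_contra hno
    exact hg (subset_toMeasurable mG Ωᶜ hno)
  set Q : Set (Fin 3 → ℝ) := Icc (fun _ => -(1 / 1000)) (fun _ => 1 / 1000) with hQdef
  have hQm : MeasurableSet Q := measurableSet_Icc
  have hQb : ∀ z ∈ Q, ∀ i, |z i| ≤ 1 / 1000 := by
    intro z hz i
    rw [abs_le]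
    exact ⟨hz.1 i, hz.2 i⟩
  -- the three steps
  have s1 : ∀ (t : ℝ) (g : SL(2, ℝ)), g ∉ N → f t g ∉ N → u (f t g) = u g := by
    intro t g hg hg'
    apply HOF_lim _ _ ns hns _ _ (2 * |t|) (hNΩ _ hg').1 (hNΩ _ hg).1
    intro k hk
    exact HOF_shift hFl hT t g (ns k) (by exact_mod_cast hk)
  have s2 : ∀ (y : ℝ) (g : SL(2, ℝ)), |y| ≤ 1 / 8 → g ∉ N → Ub p q f y g ∉ N → u (Ub p q f y g) = u g := by
    intro y g hy hg hg'
    obtain ⟨x', y', hsm, hx0, hy0⟩ := ((h2 δ (rp p) (rq q) (rf f) hδ0 hδ hFr hGr).1 (g * kJ) (-y)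
      (by rwa [abs_neg])).2
    apply HOF_lim _ _ ns hns _ _ (L + 1) (hNΩ _ hg').2 (hNΩ _ hg).2
    intro k hk
    have h10 := h3 Γ δ L (rp p) (rq q) (rf f) (fun g => h (g * kJ⁻¹)) hδ0 hδ hL hFr hGr hTr (g * kJ)
      x' y' hsm (ns k) (by exact_mod_cast hk)
    have e1 : g * kJ * dg (x' 0) (y' 0) = Ub p q f y g * kJ := by
      rw [hx0, hy0]
      unfold Ub
      rw [inv_mul_cancel_right]
      rfl
    rw [e1, HOF_avr, HOF_avr] at h10
    exact h10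
  have s3 : ∀ (x : ℝ) (g : SL(2, ℝ)), |x| ≤ 1 / 8 → g ∉ N → Sb p q f x g ∉ N → u (Sb p q f x g) = u g := by
    intro x g hx hg hg'
    obtain ⟨x', y', hsm, hx0, hy0⟩ := ((h2 δ p q f hδ0 hδ hF hFl).1 g x hx).2
    apply HOF_lim _ _ ns hns _ _ (L + 1) (hNΩ _ hg').1 (hNΩ _ hg).1
    intro k hk
    have h10 := h3 Γ δ L p q f h hδ0 hδ hL hF hFl hT g x' y' hsm (ns k) (by exact_mod_cast hk)
    have e1 : g * dg (x' 0) (y' 0) = Sb p q f x g := by
      rw [hx0, hy0]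
      rfl
    rw [e1] at h10
    exact h10
  -- null sets
  have n1 : ∀ (t : ℝ) (M : Set SL(2, ℝ)), mG M = 0 → mG ((f t) ⁻¹' M) = 0 := by
    intro t M hM
    exact (hG.mp t).quasiMeasurePreserving.preimage_null hM
  have n2 : ∀ (y : ℝ) (M : Set SL(2, ℝ)), |y| ≤ 1 / 100 → mG M = 0 → mG ((Ub p q f y) ⁻¹' M) = 0 := by
    intro y M hy hM
    obtain ⟨_, hc, hb⟩ := h7 δ p q f hδ0 hδ hF hFl y hy
    apply h5 (Ub p q f y) (1 / 8) (1 / 2) (by norm_num) (by norm_num) hc _ M hM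
    intro g E hE
    have := (hb g E hE).2.2.1
    linarith
  have n3 : ∀ (x : ℝ) (M : Set SL(2, ℝ)), |x| ≤ 1 / 100 → mG M = 0 → mG ((Sb p q f x) ⁻¹' M) = 0 := by
    intro x M hx hM
    obtain ⟨hc, _, hb⟩ := h7 δ p q f hδ0 hδ hF hFl x hx
    apply h5 (Sb p q f x) (1 / 8) (1 / 2) (by norm_num) (by norm_num) hc _ M hM
    intro g E hE
    have := (hb g E hE).1
    linarith
  -- continuity
  have c1 : ContinuousOn (fun x : (Fin 3 → ℝ) × SL(2, ℝ) => f (x.1 0) x.2) (Q ×ˢ univ) := by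
    apply Continuous.continuousOn
    have h10 : Continuous (fun x : (Fin 3 → ℝ) × SL(2, ℝ) => ((x.1 0, x.2) : ℝ × SL(2, ℝ))) :=
      ((continuous_apply 0).comp continuous_fst).prodMk continuous_snd
    exact hFl.cont.comp h10
  have cU : ContinuousOn (fun x : SL(2, ℝ) × ℝ => Ub p q f x.2 x.1) (univ ×ˢ Icc (-(1 / 8)) (1 / 8)) := by
    have h10 := (h2 δ (rp p) (rq q) (rf f) hδ0 hδ hFr hGr).2.2
    have h11 : ContinuousOn (fun x : SL(2, ℝ) × ℝ => Sb (rp p) (rq q) (rf f) (-x.2) (x.1 * kJ))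
        (univ ×ˢ Icc (-(1 / 8)) (1 / 8)) := by
      apply h10.comp (f := fun x : SL(2, ℝ) × ℝ => ((x.1 * kJ, -x.2) : SL(2, ℝ) × ℝ))
      · apply Continuous.continuousOn
        exact (continuous_fst.mul continuous_const).prodMk continuous_snd.neg
      · rintro ⟨g, y⟩ ⟨_, hy⟩
        refine ⟨mem_univ _, ?_⟩
        have hy' : y ∈ Icc (-(1 / 8) : ℝ) (1 / 8) := hy
        show -y ∈ Icc (-(1 / 8) : ℝ) (1 / 8)
        exact ⟨by linarith [hy'.2], by linarith [hy'.1]⟩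
    exact h11.mul continuousOn_const
  have c2 : ContinuousOn (fun x : (Fin 3 → ℝ) × SL(2, ℝ) => Ub p q f (x.1 1) (f (x.1 0) x.2)) (Q ×ˢ univ) := by
    apply cU.comp (f := fun x : (Fin 3 → ℝ) × SL(2, ℝ) => ((f (x.1 0) x.2, x.1 1) : SL(2, ℝ) × ℝ))
    · exact c1.prodMk (Continuous.continuousOn ((continuous_apply 1).comp continuous_fst))
    · rintro ⟨z, g⟩ ⟨hz, _⟩
      refine ⟨mem_univ _, ?_⟩
      have hz' := hQb z hz 1
      rw [abs_le] at hz'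
      show z 1 ∈ Icc (-(1 / 8) : ℝ) (1 / 8)
      exact ⟨by linarith [hz'.1], by linarith [hz'.2]⟩
  have c3 : ContinuousOn (fun x : (Fin 3 → ℝ) × SL(2, ℝ) => psi p q f x.2 x.1) (Q ×ˢ univ) := by
    apply (h8 δ p q f hδ0 hδ hF hFl).1.comp (f := fun x : (Fin 3 → ℝ) × SL(2, ℝ) => ((x.2, x.1) : SL(2, ℝ) × (Fin 3 → ℝ)))
    · exact (continuous_snd.prodMk continuous_fst).continuousOn
    · rintro ⟨z, g⟩ ⟨hz, _⟩
      exact ⟨mem_univ _, hz⟩
  -- Fubini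
  have hall : ∀ᵐ g ∂mG, ∀ᵐ z ∂(volume : Measure (Fin 3 → ℝ)), (z ∈ Q → f (z 0) g ∉ N) ∧
      (z ∈ Q → Ub p q f (z 1) (f (z 0) g) ∉ N) ∧ (z ∈ Q → psi p q f g z ∉ N) := by
    have hm : MeasurableSet {x : (Fin 3 → ℝ) × SL(2, ℝ) | (x.1 ∈ Q → f (x.1 0) x.2 ∉ N) ∧
        (x.1 ∈ Q → Ub p q f (x.1 1) (f (x.1 0) x.2) ∉ N) ∧ (x.1 ∈ Q → psi p q f x.2 x.1 ∉ N)} :=
      (HOF_meas _ Q hQm c1 N hNm).inter ((HOF_meas _ Q hQm c2 N hNm).inter (HOF_meas _ Q hQm c3 N hNm))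
    rw [← Measure.ae_ae_comm hm]
    apply Eventually.of_forall
    intro z
    by_cases hz : z ∈ Q
    · have a1 : ∀ᵐ g ∂mG, f (z 0) g ∉ N := by
        rw [ae_iff]
        simp only [not_not]
        exact n1 (z 0) N hN0
      have a2 : ∀ᵐ g ∂mG, Ub p q f (z 1) (f (z 0) g) ∉ N := by
        rw [ae_iff]
        simp only [not_not]
        exact n1 (z 0) _ (n2 (z 1) N ((hQb z hz 1).trans (by norm_num)) hN0)
      have a3 : ∀ᵐ g ∂mG, psi p q f g z ∉ N := by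
        rw [ae_iff]
        simp only [not_not]
        exact n1 (z 0) _ (n2 (z 1) _ ((hQb z hz 1).trans (by norm_num))
          (n3 (z 2) N ((hQb z hz 2).trans (by norm_num)) hN0))
      filter_upwards [a1, a2, a3] with g b1 b2 b3
      exact ⟨fun _ => b1, fun _ => b2, fun _ => b3⟩
    · apply Eventually.of_forall
      intro g
      exact ⟨fun hz' => absurd hz' hz, fun hz' => absurd hz' hz, fun hz' => absurd hz' hz⟩
  have hN1 : ∀ᵐ g ∂mG, g ∉ N := by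
    rw [ae_iff]
    simp only [not_not]
    exact hN0
  filter_upwards [hall, hN1] with g hg hgN
  set Z : Set (Fin 3 → ℝ) := {z | ¬((z ∈ Q → f (z 0) g ∉ N) ∧
      (z ∈ Q → Ub p q f (z 1) (f (z 0) g) ∉ N) ∧ (z ∈ Q → psi p q f g z ∉ N))} with hZ
  have hZ0 : volume Z = 0 := hg
  have hLC := h8 δ p q f hδ0 hδ hF hFl
  have hcont : ContinuousOn (fun z : Fin 3 → ℝ => psi p q f g z) Q := by
    apply hLC.1.comp (f := fun z : Fin 3 → ℝ => ((g, z) : SL(2, ℝ) × (Fin 3 → ℝ)))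
    · exact (continuous_const.prodMk continuous_id).continuousOn
    · intro z hz
      exact ⟨mem_univ _, hz⟩
  have hnull := h6 (fun z : Fin 3 → ℝ => psi p q f g z) (1 / 1000) 4 (by norm_num) hcont
    (fun z hz z' hz' => (hLC.2 g z hz z' hz').1) Z hZ0
  have hn' : ∀ᵐ g' ∂mG, g' ∉ (fun z : Fin 3 → ℝ => psi p q f g z) '' (Z ∩ Q) := by
    rw [ae_iff]
    simp only [not_not]
    exact hnull
  filter_upwards [hn'] with g' hg' hnm
  obtain ⟨z, hz, hzg⟩ := h9 δ p q f hδ0 hδ hF hFl g (g⁻¹ * g') hnm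
  rw [mul_inv_cancel_left] at hzg
  have hzZ : z ∉ Z := by
    intro hzz
    exact hg' ⟨z, ⟨hzz, hz⟩, hzg⟩
  obtain ⟨b1, b2, b3⟩ := not_not.1 hzZ
  have k1 := s1 (z 0) g hgN (b1 hz)
  have k2 := s2 (z 1) (f (z 0) g) ((hQb z hz 1).trans (by norm_num)) (b1 hz) (b2 hz)
  have k3 := s3 (z 2) (Ub p q f (z 1) (f (z 0) g)) ((hQb z hz 2).trans (by norm_num)) (b2 hz) (b3 hz)
  have k4 : u (psi p q f g z) = u g := by
    unfold psi
    rw [k3, k2, k1]
  rw [← hzg]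
  exact k4

end Pool.Agent.VQE
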